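import Pool.Graph.R_pool_sql_team_seeded_620a6dc7.Helper867_Rae.Assemble
import Mathlib

set_option autoImplicit false

namespace Pool.Agent.Results.MP_ecbc8a_al.WeakerHypothesis

/-- `G` is locally finite. -/
def LocallyFinite (G : Type) [Group G] : Prop := ∀ H : Subgroup G, H.FG → Finite H

/-- Every finitely generated subgroup of `G` has a subnormal series whose factors are `2`-groups
or `2'`-groups. -/
def LocallyTwoSoluble (G : Type) [Group G] : Prop :=
  ∀ K : Subgroup G, K.FG → ∃ n : ℕ, ∃ S : ℕ → Subgroup G, S 0 = ⊥ ∧ S n = K ∧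
    ∀ i < n, S i ≤ S (i + 1) ∧ ((S i).subgroupOf (S (i + 1))).Normal ∧
      ((∀ x ∈ S (i + 1), ∃ k : ℕ, x ^ (2 ^ k : ℕ) ∈ S i) ∨
       (∀ x ∈ S (i + 1), ∃ m : ℕ, Odd m ∧ x ^ m ∈ S i))

/-- `K` is `S_2`-sparse. -/
def Sparse {G : Type} [Group G] (K : Subgroup G) : Prop :=
  ∀ H : Subgroup G, H ≤ K → Countable H → Cardinal.mk (Sylow 2 H) < Cardinal.continuum

/-- `F` is a finite `2`-subgroup of `H` and among the `2`-subgroups of `H` that contain `F` there
is a largest one. -/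
def Anchor {G : Type} [Group G] (H F : Subgroup G) : Prop :=
  F ≤ H ∧ Finite F ∧ IsPGroup 2 F ∧ ∃ S : Subgroup G, S ≤ H ∧ IsPGroup 2 S ∧
    ∀ T : Subgroup G, T ≤ H → IsPGroup 2 T → F ≤ T → T ≤ S

/-- Every subgroup of `K` has an anchor. -/
def Anchored {G : Type} [Group G] (K : Subgroup G) : Prop :=
  ∀ H : Subgroup G, H ≤ K → ∃ F : Subgroup G, Anchor H F

/-- `O_{2,2',2}(G)` has finite index and `G / O_2(G)` satisfies min-`2`. -/
def Structure (G : Type) [Group G] : Prop :=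
  (∃ A B C : Subgroup G, A.Normal ∧ B.Normal ∧ C.Normal ∧ A ≤ B ∧ B ≤ C ∧
      C.FiniteIndex ∧ IsPGroup 2 A ∧
      (∀ x ∈ B, ∃ m : ℕ, Odd m ∧ x ^ m ∈ A) ∧
      (∀ x ∈ C, ∃ k : ℕ, x ^ (2 ^ k : ℕ) ∈ B)) ∧
  (∀ H : ℕ → Subgroup G, Antitone H →
      (∀ n, IsPGroup 2 (H n) ∧ sSup {N : Subgroup G | N.Normal ∧ IsPGroup 2 N} ≤ H n) →
      ∃ N : ℕ, ∀ n ≥ N, H n = H N)

/-- The quotient of `G` by `N` has `2`-length at most `n`: there is a normal series from `N` to
`G` with factors `2'`, `2`, `2'`, ..., `2`, `2'`, in which `n` factors are `2`-groups. -/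
def TwoLengthLE {G : Type} [Group G] : ℕ → Subgroup G → Prop
  | 0, N => ∀ x : G, ∃ m : ℕ, Odd m ∧ x ^ m ∈ N
  | n + 1, N => ∃ A B : Subgroup G, A.Normal ∧ B.Normal ∧ N ≤ A ∧ A ≤ B ∧
      (∀ x ∈ A, ∃ m : ℕ, Odd m ∧ x ^ m ∈ N) ∧ (∀ x ∈ B, ∃ k : ℕ, x ^ (2 ^ k : ℕ) ∈ A) ∧
      TwoLengthLE n B

section
open Pool.Agent.TH62.PL Pool.Agent.Helper867_Rae

lemma twoLength_of_len {G : Type} [Group G] (n : ℕ) : ∀ N : Subgroup G, Len {2} n N →
    TwoLengthLE n N := by
  induction n with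
  | zero =>
    intro N h x
    obtain ⟨m, hm, hx⟩ := h x (Subgroup.mem_top x)
    exact ⟨m, odd_of_PN hm, hx⟩
  | succ n ih =>
    rintro N ⟨A, B, hA, hB, hNA, hAB, h1, h2, h3⟩
    refine ⟨A, B, hA, hB, hNA, hAB, fun x hx => ?_, fun x hx => ?_, ih B h3⟩
    · obtain ⟨m, hm, hx'⟩ := h1 x hx
      exact ⟨m, odd_of_PN hm, hx'⟩
    · obtain ⟨m, hm, hx'⟩ := h2 x hx
      obtain ⟨k, rfl⟩ := hm.eq_prime_pow
      exact ⟨k, hx'⟩

/-- The length bound for a subgroup with an anchor. -/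
lemma len_bound (l c : ℕ) (hc : ∀ (X : Type) [Group X] [Finite X],
    (∃ n, Len {2} n (⊥ : Subgroup X)) → ∀ P : Subgroup X, UQ 2 P → Nat.card P ≤ 2 ^ l →
      Len {2} c (⊥ : Subgroup X))
    {G : Type} [Group G] (lf : LocallyFinite G) (hsol : LocallyTwoSoluble G) (K P : Subgroup G)
    (hP : Anchor K P) (hl : Nat.card P = 2 ^ l) : Len {2} c (⊥ : Subgroup K) := by
  have : Fact (Nat.Prime 2) := ⟨Nat.prime_two⟩
  have hloc : S_loc := Jobloc.target
  obtain ⟨hPK, hPfin, hPp, S0, hS0K, hS0p, hmax0⟩ := hP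
  have lfK : LF K := LF.subgroup lf K
  refine hloc 2 c K Nat.prime_two lfK (P.subgroupOf K) ?_ ?_
  · exact Finite.of_equiv _ (Subgroup.subgroupOfEquivOfLe hPK).symm.toEquiv
  · intro X hXfin hPX
    -- the image of `X` in `G`
    set X' : Subgroup G := X.map K.subtype with hX'
    have hX'fin : Finite X' :=
      Finite.of_equiv _ (X.equivMapOfInjective K.subtype K.subtype_injective).toEquiv
    have hX'fg : X'.FG := (Group.fg_iff_subgroup_fg X').1 inferInstance
    obtain ⟨n, S, hS0, hSn, hS⟩ := hsol X' hX'fg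
    obtain ⟨c', hc'⟩ := len_of_subnormal hX'fin n S hS0 hSn hS
    have hX : ∃ n, Len {2} n (⊥ : Subgroup X) := by
      refine ⟨c', ?_⟩
      have h1 := hc'.comap (X.equivMapOfInjective K.subtype K.subtype_injective).toMonoidHom
      have h2 : (⊥ : Subgroup X').comap
          (X.equivMapOfInjective K.subtype K.subtype_injective).toMonoidHom = ⊥ := by
        rw [MonoidHom.comap_bot]
        exact (MonoidHom.ker_eq_bot_iff _).2
          (X.equivMapOfInjective K.subtype K.subtype_injective).injective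
      rwa [h2] at h1
    refine hc X hX ((P.subgroupOf K).subgroupOf X) ?_ ?_
    · -- uniqueness
      refine ⟨(hPp.comap_subtype).comap_subtype, (S0.subgroupOf K).subgroupOf X,
        (hS0p.comap_subtype).comap_subtype, ?_⟩
      intro T hT hPT
      have h1 : (T.map X.subtype).map K.subtype ≤ S0 := by
        refine hmax0 _ ?_ ((hT.map _).map _) ?_
        · rintro _ ⟨y, _, rfl⟩; exact y.2
        · intro x hx
          have hxX : (⟨x, hPK hx⟩ : K) ∈ X := hPX hx
          exact ⟨⟨x, hPK hx⟩, ⟨⟨⟨x, hPK hx⟩, hxX⟩, hPT hx, rfl⟩, rfl⟩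
      intro x hx
      exact h1 ⟨x, ⟨x, hx, rfl⟩, rfl⟩
    · have h1 : Nat.card ((P.subgroupOf K).subgroupOf X) = Nat.card (P.subgroupOf K) :=
        Nat.card_congr (Subgroup.subgroupOfEquivOfLe hPX).toEquiv
      have h2 : Nat.card (P.subgroupOf K) = Nat.card P :=
        Nat.card_congr (Subgroup.subgroupOfEquivOfLe hPK).toEquiv
      rw [h1, h2, hl]

lemma structure_of {G : Type} [Group G] (lf : LocallyFinite G) (hsol : LocallyTwoSoluble G)
    (K : Subgroup G) (hKfin : K.FiniteIndex) (hUK : Anchored K) : Structure G := by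
  have : Fact (Nat.Prime 2) := ⟨Nat.prime_two⟩
  have hmain : S_main := infinite_part
  have hF : S_F := finite_part
  obtain ⟨P, hP⟩ := hUK K le_rfl
  have hPfin0 : Finite P := hP.2.1
  obtain ⟨l, hl⟩ := hP.2.2.1.exists_card_eq
  obtain ⟨c, hc⟩ := hF 2 l
  have hlenK : Len {2} c (⊥ : Subgroup K) := len_bound l c hc lf hsol K P hP hl
  -- the normal core
  set N : Subgroup G := K.normalCore with hN
  have hNK : N ≤ K := Subgroup.normalCore_le K
  have hNn : N.Normal := inferInstance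
  have hNfin : N.FiniteIndex := by
    have := hKfin
    infer_instance
  have lfN : LF N := LF.subgroup lf N
  have hUN : HUQ 2 N := by
    intro H
    have hHN : H.map N.subtype ≤ N := by rintro _ ⟨x, _, rfl⟩; exact x.2
    obtain ⟨F, hFH, hFfin, hFp, S, hSH, hSp, hmax⟩ := hUK (H.map N.subtype) (hHN.trans hNK)
    have hFN : F ≤ N := hFH.trans hHN
    have hSN : S ≤ N := hSH.trans hHN
    have hmem : ∀ (x : N), (x : G) ∈ H.map N.subtype → x ∈ H := by
      rintro x ⟨y, hy, hxy⟩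
      have : y = x := Subtype.ext hxy
      exact this ▸ hy
    refine ⟨F.subgroupOf N, fun x hx => hmem x (hFH hx), ?_, hFp.comap_subtype,
      S.subgroupOf N, fun x hx => hmem x (hSH hx), hSp.comap_subtype, ?_⟩
    · exact Finite.of_equiv _ (Subgroup.subgroupOfEquivOfLe hFN).symm.toEquiv
    · intro T hTH hTp hFT
      have h1 := hmax (T.map N.subtype) (Subgroup.map_mono hTH) (hTp.map _) (by
        intro x hx
        exact ⟨⟨x, hFN hx⟩, hFT hx, rfl⟩)
      intro x hx
      exact h1 ⟨x, hx, rfl⟩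
  have hlenN : Len {2} c (⊥ : Subgroup N) := by
    have h1 := hlenK.comap (Subgroup.inclusion hNK)
    have h2 : (⊥ : Subgroup K).comap (Subgroup.inclusion hNK) = ⊥ := by
      rw [MonoidHom.comap_bot]
      exact (MonoidHom.ker_eq_bot_iff _).2 (Subgroup.inclusion_injective hNK)
    rwa [h2] at h1
  obtain ⟨A, B, C, hA, hB, hC, hAB, hBC, hCfin, hAp, hBp, hCp, hAmax, hchain⟩ :=
    hmain N c lfN hUN hlenN
  have hA' : (A.map N.subtype).Normal := ConjAct.normal_of_characteristic_of_normal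
  have hB' : (B.map N.subtype).Normal := ConjAct.normal_of_characteristic_of_normal
  have hC' : (C.map N.subtype).Normal := ConjAct.normal_of_characteristic_of_normal
  refine ⟨⟨A.map N.subtype, B.map N.subtype, C.map N.subtype, hA', hB', hC',
    Subgroup.map_mono hAB, Subgroup.map_mono hBC, ?_, hAp.map _, ?_, ?_⟩, ?_⟩
  · refine ⟨?_⟩
    rw [Subgroup.index_map_subtype]
    exact mul_ne_zero hCfin.index_ne_zero hNfin.index_ne_zero
  · rintro _ ⟨x, hx, rfl⟩
    obtain ⟨m, hm, hm'⟩ := hBp x hx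
    exact ⟨m, odd_of_PN hm, x ^ m, hm', by simp⟩
  · rintro _ ⟨x, hx, rfl⟩
    obtain ⟨m, hm, hm'⟩ := hCp x hx
    obtain ⟨k, rfl⟩ := hm.eq_prime_pow
    exact ⟨k, x ^ (2 ^ k), hm', by simp⟩
  · intro H hH hHp
    have hAO : A.map N.subtype ≤ sSup {N : Subgroup G | N.Normal ∧ IsPGroup 2 N} :=
      le_sSup ⟨hA', hAp.map _⟩
    obtain ⟨n1, hn1⟩ := hchain (fun n => (H n).subgroupOf N)
      (fun a b hab => Subgroup.comap_mono (hH hab)) (fun n => ⟨(hHp n).1.comap_subtype, by
        intro x hx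
        exact (hHp n).2 (hAO ⟨x, hx, rfl⟩)⟩)
    -- the images in the finite quotient
    have hfinq : Finite (G ⧸ N) := Subgroup.finite_quotient_of_finiteIndex
    have hex : ∃ n2, ∀ m ≥ n2, (H m).map (QuotientGroup.mk' N) =
        (H n2).map (QuotientGroup.mk' N) := by
      have hne : (Set.range (fun n => Nat.card ((H n).map (QuotientGroup.mk' N)))).Nonempty :=
        ⟨_, 0, rfl⟩
      obtain ⟨n2, hn2⟩ := Nat.sInf_mem hne
      refine ⟨n2, fun m hm => ?_⟩
      have hle : Nat.card ((H n2).map (QuotientGroup.mk' N)) ≤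
          Nat.card ((H m).map (QuotientGroup.mk' N)) := by
        have h0 : sInf (Set.range (fun n => Nat.card ((H n).map (QuotientGroup.mk' N)))) ≤
          Nat.card ((H m).map (QuotientGroup.mk' N)) := Nat.sInf_le ⟨m, rfl⟩
        exact le_trans (le_of_eq hn2) h0
      exact Subgroup.eq_of_le_of_card_ge (Subgroup.map_mono (hH hm)) hle
    obtain ⟨n2, hn2⟩ := hex
    refine ⟨max n1 n2, fun m hm => ?_⟩
    apply le_antisymm (hH hm)
    intro x hx
    have h1 : (QuotientGroup.mk' N) x ∈ (H m).map (QuotientGroup.mk' N) := by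
      rw [hn2 m (le_trans (le_max_right _ _) hm), ← hn2 (max n1 n2) (le_max_right _ _)]
      exact ⟨x, hx, rfl⟩
    obtain ⟨y, hy, hxy⟩ := h1
    have h2 : y⁻¹ * x ∈ N := QuotientGroup.eq.1 hxy
    have h3 : y⁻¹ * x ∈ H (max n1 n2) :=
      (H (max n1 n2)).mul_mem ((H (max n1 n2)).inv_mem (hH hm hy)) hx
    have h4 : (⟨y⁻¹ * x, h2⟩ : N) ∈ (H m).subgroupOf N := by
      have h5 := hn1 m (le_trans (le_max_left _ _) hm)
      have h6 := hn1 (max n1 n2) (le_max_left _ _)
      have h7 : (H m).subgroupOf N = (H (max n1 n2)).subgroupOf N := h5.trans h6.symm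
      rw [h7]; exact h3
    have h5 : y⁻¹ * x ∈ H m := h4
    have h6 := (H m).mul_mem hy h5
    rwa [mul_inv_cancel_left] at h6


end

/-- (1) In a locally finite, locally `2`-soluble group the `2`-length is bounded by a function of
the order of an anchor. (2) `S_2`-sparse subgroups are anchored. (3) If a locally finite, locally
`2`-soluble group has an anchored subgroup of finite index, the structure theorem holds. -/
theorem result :
    (∃ c : ℕ → ℕ, ∀ (G : Type) [Group G], LocallyFinite G → LocallyTwoSoluble G →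
      ∀ F : Subgroup G, Anchor ⊤ F → TwoLengthLE (c (Nat.card F)) (⊥ : Subgroup G)) ∧
    (∀ (G : Type) [Group G], LocallyFinite G → ∀ K : Subgroup G, Sparse K → Anchored K) ∧
    (∀ (G : Type) [Group G], LocallyFinite G → LocallyTwoSoluble G →
      (∃ K : Subgroup G, K.FiniteIndex ∧ Anchored K) → Structure G) := by
  have : Fact (Nat.Prime 2) := ⟨Nat.prime_two⟩
  refine ⟨?_, fun G _ lf K hK => Pool.Agent.Helper867_Rae.Jobtree.target G lf K hK,
    fun G _ lf hsol ⟨K, hK, hA⟩ => structure_of lf hsol K hK hA⟩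
  have hF : Pool.Agent.Helper867_Rae.S_F := Pool.Agent.Helper867_Rae.finite_part
  choose c hc using fun l => hF 2 l
  refine ⟨fun m => c (Nat.log 2 m), fun G _ lf hsol F hA => ?_⟩
  have hfin : Finite F := hA.2.1
  obtain ⟨l, hl⟩ := hA.2.2.1.exists_card_eq
  have h1 := len_bound l (c l) (hc l) lf hsol ⊤ F hA hl
  have h2 := h1.comap (Subgroup.topEquiv (G := G)).symm.toMonoidHom
  have h3 : (⊥ : Subgroup (⊤ : Subgroup G)).comap
      (Subgroup.topEquiv (G := G)).symm.toMonoidHom = ⊥ := by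
    rw [MonoidHom.comap_bot]
    exact (MonoidHom.ker_eq_bot_iff _).2 (Subgroup.topEquiv (G := G)).symm.injective
  rw [h3] at h2
  change TwoLengthLE (c (Nat.log 2 (Nat.card F))) (⊥ : Subgroup G)
  rw [hl, Nat.log_pow (by norm_num)]
  exact twoLength_of_len _ _ h2

end Pool.Agent.Results.MP_ecbc8a_al.WeakerHypothesis
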